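import Pool.Agent.Helper8.SPV.Stmts3

/-! # If a function takes finitely many values then the graphs are not dense (MP_aad98f_ag) -/

set_option autoImplicit false

namespace Pool.Agent.Helper8.SPV

open AlgebraicGeometry CategoryTheory CategoryTheory.Limits
open TensorProduct Polynomial

theorem GS4_inj (k K A : Type) [Field k] [Field K] [CommRing A] [Algebra k K] [Algebra k A]
    (a : A) (ha : Transcendental k a) :
    Function.Injective (Polynomial.aeval (R := K) ((1 : K) ⊗ₜ[k] a)) := by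
  have h1 : Function.Injective (Polynomial.aeval (R := k) a) :=
    transcendental_iff_injective.1 ha
  have h2 : Function.Injective ((Polynomial.aeval (R := k) a).toLinearMap.lTensor K) :=
    Module.Flat.lTensor_preserves_injective_linearMap _ h1
  have h3 : (Polynomial.aeval (R := K) ((1 : K) ⊗ₜ[k] a) : K[X] →+* K ⊗[k] A) =
      ((Algebra.TensorProduct.map (AlgHom.id k K) (Polynomial.aeval (R := k) a) :
        K ⊗[k] k[X] →ₐ[k] K ⊗[k] A) : K ⊗[k] k[X] →+* K ⊗[k] A).comp
        (polyEquivTensor k K : K[X] →+* K ⊗[k] k[X]) := by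
    apply Polynomial.ringHom_ext
    · intro c
      simp [polyEquivTensor_apply]
    · simp [polyEquivTensor_apply]
  intro P Q hPQ
  have h4 : ∀ P : K[X], Polynomial.aeval (R := K) ((1 : K) ⊗ₜ[k] a) P =
      (Polynomial.aeval (R := k) a).toLinearMap.lTensor K (polyEquivTensor k K P) := by
    intro P
    exact congrArg (fun f : K[X] →+* K ⊗[k] A => f P) h3
  rw [h4, h4] at hPQ
  exact (polyEquivTensor k K).injective (h2 hPQ)

theorem GS4_nilp (k K A B : Type) [Field k] [Field K] [CommRing A] [CommRing B] [Algebra k K]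
    [Algebra k A] [Algebra k B] (γ : B →ₐ[k] K) (a : A)
    (ha : Transcendental k a) {ι : Type} (S : Finset ι) (n d : ι → B) (hd : ∀ i ∈ S, γ (d i) ≠ 0) :
    ¬ IsNilpotent (∏ i ∈ S, (n i ⊗ₜ[k] (1 : A) - d i ⊗ₜ[k] a)) := by
  rintro ⟨N, hN⟩
  have h1 := congrArg (Algebra.TensorProduct.map γ (AlgHom.id k A)) hN
  rw [map_pow, map_prod, map_zero] at h1
  have h2 : (∏ i ∈ S, (Algebra.TensorProduct.map γ (AlgHom.id k A))
      (n i ⊗ₜ[k] (1 : A) - d i ⊗ₜ[k] a)) ^ N =
      Polynomial.aeval (R := K) ((1 : K) ⊗ₜ[k] a) ((∏ i ∈ S, (C (γ (n i)) - C (γ (d i)) * X)) ^ N) := by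
    rw [map_pow, map_prod]
    congr 1
    apply Finset.prod_congr rfl
    intro i _
    rw [map_sub, map_sub, map_mul, aeval_C, aeval_C, aeval_X, Algebra.TensorProduct.map_tmul,
      Algebra.TensorProduct.map_tmul, Algebra.TensorProduct.algebraMap_apply,
      Algebra.TensorProduct.algebraMap_apply, Algebra.TensorProduct.tmul_mul_tmul]
    simp
  rw [h2] at h1
  have h3 : ((∏ i ∈ S, (C (γ (n i)) - C (γ (d i)) * X)) ^ N : K[X]) = 0 :=
    GS4_inj k K A a ha (h1.trans (map_zero _).symm)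
  have h4 : (∏ i ∈ S, (C (γ (n i)) - C (γ (d i)) * X) : K[X]) = 0 :=
    IsReduced.eq_zero _ ⟨N, h3⟩
  rw [Finset.prod_eq_zero_iff] at h4
  obtain ⟨i, hi, h5⟩ := h4
  have h6 := congrArg (fun p : K[X] => p.coeff 1) h5
  simp [coeff_C] at h6
  exact hd i hi h6

theorem st_GS4 : ST_GS4 := by
  intro k _ _ _ C _ sC _ A _ _ _ _ X _ s _ j _ hj f hf φ hφ a ha hfin hcl
  -- an affine open subset of `C`
  obtain ⟨V, hV, hgV⟩ : ∃ V : C.Opens, IsAffineOpen V ∧ genericPoint C ∈ V := by
    obtain ⟨_, ⟨A, hA, rfl⟩, hxA, -⟩ :=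
      C.isBasis_affineOpens.exists_subset_of_mem_open (Set.mem_univ (genericPoint C)) isOpen_univ
    exact ⟨A, hA, hxA⟩
  have hne : Nonempty V := ⟨⟨_, hgV⟩⟩
  let iB : Algebra k Γ(C, V) := (Spec.preimage (hV.fromSpec ≫ sC)).hom.toAlgebra
  have hB : hV.fromSpec ≫ sC = Spec.map (CommRingCat.ofHom (algebraMap k Γ(C, V))) := by
    rw [show CommRingCat.ofHom (algebraMap k Γ(C, V)) = Spec.preimage (hV.fromSpec ≫ sC) from rfl,
      Spec.map_preimage]
  have hfs : ∀ i, f i ≫ s = sC := fun i => by rw [← hf i, Category.id_comp]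
  have hK : gpt sC ≫ sC = Spec.map (CommRingCat.ofHom (algebraMap k (FF sC))) := by
    calc gpt sC ≫ sC = gpt sC ≫ (f 0 ≫ s) := congrArg _ (hfs 0).symm
      _ = (gpt sC ≫ f 0) ≫ s := (Category.assoc _ _ _).symm
      _ = Spec.map (CommRingCat.ofHom (φ 0 : A →+* FF sC)) ≫ j ≫ s := by
          rw [hφ 0, Category.assoc]
      _ = Spec.map (CommRingCat.ofHom (algebraMap k (FF sC))) := by
          rw [hj, ← Spec.map_comp, ← CommRingCat.ofHom_comp, AlgHom.comp_algebraMap]
  -- the inclusion of `Γ(C, V)` in the function field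
  have hγ0 : Spec.map (C.germToFunctionField V) ≫ hV.fromSpec = gpt sC :=
    hV.fromSpecStalk_eq_fromSpecStalk hgV
  have hγk : CommRingCat.ofHom (algebraMap k Γ(C, V)) ≫ C.germToFunctionField V =
      CommRingCat.ofHom (algebraMap k (FF sC)) := by
    apply Spec.map_injective
    rw [Spec.map_comp, ← hB, ← Category.assoc, hγ0]
    exact hK
  let γ : Γ(C, V) →ₐ[k] FF sC :=
    { (C.germToFunctionField V).hom with
      commutes' := fun c => congrArg (fun g => g.hom c) hγk }
  have hγ : ∀ b, γ b = C.germToFunctionField V b := fun b => rfl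
  have hfrac : IsFractionRing Γ(C, V) C.functionField :=
    functionField_isFractionRing_of_isAffineOpen C V hV
  have hnd : ∀ σ : FF sC, ∃ n d : Γ(C, V), γ d ≠ 0 ∧ γ n = γ d * σ := by
    intro σ
    obtain ⟨n, d, hd, h⟩ := IsFractionRing.div_surjective (A := Γ(C, V)) (K := C.functionField) σ
    have hd0 : algebraMap Γ(C, V) C.functionField d ≠ 0 :=
      IsFractionRing.to_map_ne_zero_of_mem_nonZeroDivisors hd
    refine ⟨n, d, hd0, ?_⟩
    have h1 : ∀ σ' : C.functionField,
        algebraMap Γ(C, V) C.functionField n / algebraMap Γ(C, V) C.functionField d = σ' →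
        algebraMap Γ(C, V) C.functionField n =
        algebraMap Γ(C, V) C.functionField d * σ' := by
      intro σ' h
      rw [← h]
      field_simp
    exact h1 σ h
  choose n d hd hn using hnd
  let G : Γ(C, V) ⊗[k] A := ∏ σ ∈ hfin.toFinset, (n σ ⊗ₜ[k] (1 : A) - d σ ⊗ₜ[k] a)
  have hG : ¬ IsNilpotent G := GS4_nilp k (FF sC) A Γ(C, V) γ a ha _ n d fun σ _ => hd σ
  -- the open immersion
  let h : Spec (.of (Γ(C, V) ⊗[k] A)) ⟶ pullback sC s :=
    (pullbackSpecIso k Γ(C, V) A).inv ≫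
      pullback.map _ _ sC s hV.fromSpec j (𝟙 _) (by rw [Category.comp_id, hB])
        (by rw [Category.comp_id, hj])
  have hfst : h ≫ pullback.fst sC s =
      Spec.map (CommRingCat.ofHom Algebra.TensorProduct.includeLeftRingHom) ≫ hV.fromSpec := by
    simp only [h, Category.assoc, pullback.lift_fst]
    rw [← pullbackSpecIso_inv_fst]
    simp
  have hsnd : h ≫ pullback.snd sC s =
      Spec.map (CommRingCat.ofHom ((Algebra.TensorProduct.includeRight :
        A →ₐ[k] Γ(C, V) ⊗[k] A) : A →+* Γ(C, V) ⊗[k] A)) ≫ j := by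
    simp only [h, Category.assoc, pullback.lift_snd]
    rw [← pullbackSpecIso_inv_snd]
    simp
  have hopen : IsOpenImmersion h := inferInstance
  -- a point of a graph in the image of `D(G)`
  obtain ⟨q0, hq0, hGq0⟩ : ∃ q0 : Ideal (Γ(C, V) ⊗[k] A), q0.IsPrime ∧ G ∉ q0 := by
    by_contra hcon
    push Not at hcon
    exact hG (nilpotent_iff_mem_prime.2 fun J hJ => hcon J hJ)
  have hDopen : IsOpen (h '' {q : Spec (.of (Γ(C, V) ⊗[k] A)) | G ∉ q.asIdeal}) :=
    hopen.base_open.isOpenMap _ (PrimeSpectrum.basicOpen G).isOpen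
  have hdense : Dense (⋃ i, Set.range (pullback.lift (𝟙 C) (f i) (hf i))) :=
    dense_iff_closure_eq.2 hcl
  obtain ⟨z, ⟨q, hGq, hqz⟩, hz⟩ := hdense.inter_open_nonempty _ hDopen
    ⟨_, ⟨q0, hq0⟩, hGq0, rfl⟩
  obtain ⟨i, hzi⟩ := Set.mem_iUnion.1 hz
  obtain ⟨c, hc⟩ := hzi
  have hqc : h q = pullback.lift (𝟙 C) (f i) (hf i) c := hqz.trans hc.symm
  -- `c` is in `V` and `f i c` is in the range of `j`
  have hcV : c ∈ V := by
    have h1 : (h ≫ pullback.fst sC s) q = c := by
      rw [Scheme.Hom.comp_apply, hqc, ← Scheme.Hom.comp_apply, pullback.lift_fst]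
      rfl
    rw [hfst, Scheme.Hom.comp_apply] at h1
    have h2 : c ∈ Set.range hV.fromSpec := ⟨_, h1⟩
    rw [hV.range_fromSpec] at h2
    exact h2
  have hcj : f i c ∈ Set.range j := by
    have h1 : (h ≫ pullback.snd sC s) q = f i c := by
      rw [Scheme.Hom.comp_apply, hqc, ← Scheme.Hom.comp_apply, pullback.lift_snd]
    rw [hsnd, Scheme.Hom.comp_apply] at h1
    exact ⟨_, h1⟩
  have hr : Set.range (C.fromSpecStalk c ≫ f i) ⊆ Set.range j := by
    rintro _ ⟨p, rfl⟩
    rw [Scheme.Hom.comp_apply]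
    have h1 : C.fromSpecStalk c p ⤳ c := by
      have h2 : C.fromSpecStalk c p ∈ Set.range (C.fromSpecStalk c) := ⟨p, rfl⟩
      rwa [Scheme.range_fromSpecStalk] at h2
    exact (h1.map (f i).continuous).mem_open j.isOpenEmbedding.isOpen_range hcj
  -- the homomorphisms to the local ring at `c`
  let S := C.presheaf.stalk c
  let β : Γ(C, V) ⟶ S := C.presheaf.germ V c hcV
  have hβ : Spec.map β ≫ hV.fromSpec = C.fromSpecStalk c := hV.fromSpecStalk_eq_fromSpecStalk hcV
  let α : CommRingCat.of A ⟶ S := Spec.preimage (IsOpenImmersion.lift j (C.fromSpecStalk c ≫ f i) hr)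
  have hα : Spec.map α ≫ j = C.fromSpecStalk c ≫ f i := by
    rw [Spec.map_preimage, IsOpenImmersion.lift_fac]
  let iS : Algebra k S := (CommRingCat.ofHom (algebraMap k Γ(C, V)) ≫ β).hom.toAlgebra
  have hαk : CommRingCat.ofHom (algebraMap k A) ≫ α = CommRingCat.ofHom (algebraMap k Γ(C, V)) ≫ β := by
    apply Spec.map_injective
    rw [Spec.map_comp, Spec.map_comp, ← hj, ← hB, ← Category.assoc, ← Category.assoc, hα, hβ,
      Category.assoc, hfs i]
  let β' : Γ(C, V) →ₐ[k] S := { β.hom with commutes' := fun c => rfl }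
  let α' : A →ₐ[k] S := { α.hom with commutes' := fun c => congrArg (fun g => g.hom c) hαk }
  let τ : S ⟶ C.functionField := C.presheaf.stalkSpecializes ((genericPoint_spec C).specializes trivial)
  have hτ : Spec.map τ ≫ C.fromSpecStalk c = gpt sC := Scheme.SpecMap_stalkSpecializes_fromSpecStalk _
  have hβτ : β ≫ τ = C.germToFunctionField V := C.presheaf.germ_stalkSpecializes hcV _
  have hατ : α ≫ τ = CommRingCat.ofHom (φ i : A →+* FF sC) := by
    apply Spec.map_injective
    rw [← cancel_mono j, Spec.map_comp, Category.assoc, hα, ← Category.assoc, hτ]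
    exact hφ i
  have hτinj : Function.Injective τ.hom :=
    IsFractionRing.injective (C.presheaf.stalk c) C.functionField
  let χ : Γ(C, V) ⊗[k] A →ₐ[k] S := Algebra.TensorProduct.lift β' α' fun _ _ => Commute.all _ _
  have hχG : χ G = 0 := by
    rw [map_prod]
    apply Finset.prod_eq_zero (i := φ i a) (by simp)
    apply hτinj
    have h1 : χ (n (φ i a) ⊗ₜ[k] (1 : A) - d (φ i a) ⊗ₜ[k] a) =
        β' (n (φ i a)) - β' (d (φ i a)) * α' a := by
      rw [map_sub, Algebra.TensorProduct.lift_tmul, Algebra.TensorProduct.lift_tmul, map_one,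
        mul_one]
    rw [h1, map_sub, map_mul, map_zero]
    have h2 : ∀ b : Γ(C, V), τ.hom (β' b) = γ b := fun b => congrArg (fun g => g.hom b) hβτ
    have h3 : ∀ b : A, τ.hom (α' b) = φ i b := fun b => congrArg (fun g => g.hom b) hατ
    have h4 : γ (n (φ i a)) - γ (d (φ i a)) * φ i a = 0 := by rw [hn]; exact sub_self _
    rw [h2, h2, h3]
    exact h4
  have hfac : C.fromSpecStalk c ≫ pullback.lift (𝟙 C) (f i) (hf i) =
      Spec.map (CommRingCat.ofHom (χ : Γ(C, V) ⊗[k] A →+* S)) ≫ h := by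
    apply pullback.hom_ext
    · rw [Category.assoc, Category.assoc, pullback.lift_fst, hfst, ← Category.assoc,
        ← Spec.map_comp, Category.comp_id, ← hβ]
      congr 2
      ext b
      simp [χ, β']
    · rw [Category.assoc, Category.assoc, pullback.lift_snd, hsnd, ← Category.assoc,
        ← Spec.map_comp, ← hα]
      congr 2
      ext b
      simp [χ, α']
  let x0 : Spec S := IsLocalRing.closedPoint S
  have hpt : h q = h (Spec.map (CommRingCat.ofHom (χ : Γ(C, V) ⊗[k] A →+* S)) x0) := by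
    have e1 : (C.fromSpecStalk c ≫ pullback.lift (𝟙 C) (f i) (hf i)) x0 =
        (Spec.map (CommRingCat.ofHom (χ : Γ(C, V) ⊗[k] A →+* S)) ≫ h) x0 := by rw [hfac]
    rw [Scheme.Hom.comp_apply, Scheme.Hom.comp_apply] at e1
    rw [← e1, hqc]
    congr 1
    exact Scheme.fromSpecStalk_closedPoint.symm
  have hq : q = Spec.map (CommRingCat.ofHom (χ : Γ(C, V) ⊗[k] A →+* S)) x0 :=
    hopen.base_open.injective hpt
  apply hGq
  rw [hq]
  change χ G ∈ IsLocalRing.maximalIdeal S
  rw [hχG]
  exact zero_mem _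

end Pool.Agent.Helper8.SPV
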